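import Pool.Agent.Helper47.NS.Reduce

/-!
# The nilpotence conjecture and phantoms
-/

set_option linter.unusedSectionVars false

namespace Pool.Agent.Helper47.NS

open Pool.Agent.Helper29.CPB Pool.Agent.Helper89.NN Pool.Agent.Helper90.NS Polynomial

universe u v

/-- Fitting idempotent: a polynomial relation without constant term gives an idempotent without
constant term. -/
lemma exists_fitting {K R : Type*} [Field K] [Ring R] [Algebra K R] (M : R) (p : K[X])
    (hp : p ≠ 0) (h : aeval M (X * p) = 0) :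
    ∃ (q : K[X]) (m : ℕ), aeval M (X * q) * aeval M (X * q) = aeval M (X * q) ∧
      M ^ (m + 1) * aeval M (X * q) = M ^ (m + 1) := by
  obtain ⟨p₁, hp₁, hd⟩ := p.exists_eq_pow_rootMultiplicity_mul_and_not_dvd hp 0
  rw [C_0, sub_zero] at hp₁ hd
  obtain ⟨m, hm⟩ : ∃ m, m = p.rootMultiplicity 0 := ⟨_, rfl⟩
  rw [← hm] at hp₁
  have hc : p₁.coeff 0 ≠ 0 := by rwa [Ne, ← X_dvd_iff]
  have key : ∀ r : K[X], X * p ∣ r → aeval M r = 0 := by
    rintro _ ⟨s, rfl⟩
    rw [map_mul, h, zero_mul]
  obtain ⟨S, hS⟩ : ∃ S : K[X], S = -(C (p₁.coeff 0)⁻¹ * p₁.divX) := ⟨_, rfl⟩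
  have ha : C (p₁.coeff 0)⁻¹ * p₁ = 1 - X * S := by
    have h1 := p₁.divX_mul_X_add
    have h2 : C (p₁.coeff 0)⁻¹ * C (p₁.coeff 0) = (1 : K[X]) := by
      rw [← C_mul, inv_mul_cancel₀ hc, C_1]
    calc C (p₁.coeff 0)⁻¹ * p₁ = C (p₁.coeff 0)⁻¹ * (p₁.divX * X + C (p₁.coeff 0)) := by rw [h1]
      _ = 1 - X * S := by rw [hS, mul_add, h2]; ring
  obtain ⟨w, hw⟩ : (X * S - 1) ∣ (X * S) ^ (m + 1) - 1 := by
    have := sub_dvd_pow_sub_pow (X * S) 1 (m + 1)
    rwa [one_pow] at this
  refine ⟨S * (X * S) ^ m, m, ?_, ?_⟩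
  · rw [← map_mul, ← sub_eq_zero, ← map_sub]
    apply key
    refine ⟨-(S ^ (m + 1) * C (p₁.coeff 0)⁻¹ * w), ?_⟩
    have e1 : X * (S * (X * S) ^ m) * (X * (S * (X * S) ^ m)) - X * (S * (X * S) ^ m) =
        (X * S) ^ (m + 1) * ((X * S) ^ (m + 1) - 1) := by ring
    rw [e1, hw, hp₁]
    have e2 : X * S - 1 = -(C (p₁.coeff 0)⁻¹ * p₁) := by rw [ha]; ring
    rw [e2]
    ring
  · have e0 : M ^ (m + 1) = aeval M (X ^ (m + 1) : K[X]) := by rw [map_pow, aeval_X]
    rw [e0, ← map_mul, ← sub_eq_zero, ← map_sub]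
    apply key
    refine ⟨-(C (p₁.coeff 0)⁻¹ * w), ?_⟩
    have e1 : X ^ (m + 1) * (X * (S * (X * S) ^ m)) - X ^ (m + 1) =
        X ^ (m + 1) * ((X * S) ^ (m + 1) - 1) := by ring
    rw [e1, hw, hp₁]
    have e2 : X * S - 1 = -(C (p₁.coeff 0)⁻¹ * p₁) := by rw [ha]; ring
    rw [e2]
    ring

variable {F : Type u} [Field F] [CharZero F] {X : Variety.{u, v} F} (P : Powers X)

/-- composition of self-correspondences of `X^k` -/
noncomputable def comp (k : ℕ) (t u : List X.H → F) : List X.H → F := fun l =>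
  linkForm P.e P.f k t u (l.take k) (l.drop k)

lemma take_drop_ofFn {k : ℕ} (l₁ l₂ : List X.H) (h : l₁.length = k) :
    (l₁ ++ l₂).take k = l₁ ∧ (l₁ ++ l₂).drop k = l₂ := by
  subst h
  exact ⟨List.take_left, List.drop_left⟩

/-- the intersection numbers of composites -/
lemma link_comp (k : ℕ) (t u s : List X.H → F) :
    linkForm P.e P.f (2 * k) (comp P k t u) s [] [] =
      linkForm P.e P.f (2 * k) t (comp P k u s) [] [] := by
  rw [two_mul, linkForm_add, linkForm_add]
  refine Finset.sum_congr rfl fun a _ => ?_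
  rw [linkForm_eq, linkForm_eq]
  have e1 : ∀ b : Fin k → Fin P.r,
      comp P k t u ([] ++ List.ofFn (fun i => P.e (a i)) ++ List.ofFn fun i => P.e (b i)) =
      ∑ c : Fin k → Fin P.r, t (List.ofFn (fun i => P.e (a i)) ++ List.ofFn fun i => P.e (c i)) *
        u ((List.ofFn fun i => P.f (c i)).reverse ++ List.ofFn fun i => P.e (b i)) := by
    intro b
    obtain ⟨h1, h2⟩ := take_drop_ofFn (k := k) (List.ofFn fun i => P.e (a i))
      (List.ofFn fun i => P.e (b i)) (by simp)
    rw [comp, List.nil_append, h1, h2, linkForm_eq]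
  have e2 : ∀ c : Fin k → Fin P.r,
      comp P k u s ((List.ofFn fun i => P.f (c i)).reverse ++
        ((List.ofFn fun i => P.f (a i)).reverse ++ [])) =
      ∑ b : Fin k → Fin P.r, u ((List.ofFn fun i => P.f (c i)).reverse ++
          List.ofFn fun i => P.e (b i)) *
        s ((List.ofFn fun i => P.f (b i)).reverse ++ (List.ofFn fun i => P.f (a i)).reverse) := by
    intro c
    obtain ⟨h1, h2⟩ := take_drop_ofFn (k := k) (List.ofFn fun i => P.f (c i)).reverse
      (List.ofFn fun i => P.f (a i)).reverse (by simp)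
    rw [comp, List.append_nil, h1, h2, linkForm_eq]
  have e3 : ∀ b : Fin k → Fin P.r,
      comp P k t u ([] ++ List.ofFn (fun i => P.e (a i)) ++ List.ofFn fun i => P.e (b i)) *
        s ((List.ofFn fun i => P.f (b i)).reverse ++ ((List.ofFn fun i => P.f (a i)).reverse ++
          [])) = ∑ c : Fin k → Fin P.r,
      t (List.ofFn (fun i => P.e (a i)) ++ List.ofFn fun i => P.e (c i)) *
        (u ((List.ofFn fun i => P.f (c i)).reverse ++ List.ofFn fun i => P.e (b i)) *
        s ((List.ofFn fun i => P.f (b i)).reverse ++ (List.ofFn fun i => P.f (a i)).reverse)) := by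
    intro b
    rw [e1 b, Finset.sum_mul]
    refine Finset.sum_congr rfl fun c _ => ?_
    rw [List.append_nil]
    ring
  have e4 : ∀ c : Fin k → Fin P.r,
      t ([] ++ List.ofFn (fun i => P.e (a i)) ++ List.ofFn fun i => P.e (c i)) *
        comp P k u s ((List.ofFn fun i => P.f (c i)).reverse ++
        ((List.ofFn fun i => P.f (a i)).reverse ++ [])) = ∑ b : Fin k → Fin P.r,
      t (List.ofFn (fun i => P.e (a i)) ++ List.ofFn fun i => P.e (c i)) *
        (u ((List.ofFn fun i => P.f (c i)).reverse ++ List.ofFn fun i => P.e (b i)) *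
        s ((List.ofFn fun i => P.f (b i)).reverse ++ (List.ofFn fun i => P.f (a i)).reverse)) := by
    intro c
    rw [e2 c, Finset.mul_sum, List.nil_append]
  rw [Finset.sum_congr rfl fun b _ => e3 b, Finset.sum_congr rfl fun c _ => e4 c,
    Finset.sum_comm]

lemma numZero_comp {k : ℕ} {t u : List X.H → F} (hn : NumZero P.e P.f P.cyc k t)
    (hu : P.cyc (2 * k) u) : NumZero P.e P.f P.cyc k (comp P k t u) := by
  intro s hs
  rw [link_comp]
  exact hn _ (comp_cyc P hu hs)

lemma numZero_pow {k : ℕ} {t : List X.H → F} (ht : P.cyc (2 * k) t)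
    (hn : NumZero P.e P.f P.cyc k t) (N : ℕ) :
    NumZero P.e P.f P.cyc k (powForm P.e P.f k t N) := by
  induction N with
  | zero => exact hn
  | succ N ih => exact numZero_comp P ih ht

/-- rational linear combinations of the powers of `t` -/
noncomputable def polForm (k : ℕ) (t : List X.H → F) (c : ℕ → ℚ) (n : ℕ) : List X.H → F :=
  fun l => ∑ j ∈ Finset.range n, (c j : F) * powForm P.e P.f k t j l

lemma polForm_cyc {k : ℕ} {t : List X.H → F} (ht : P.cyc (2 * k) t) (c : ℕ → ℚ) (n : ℕ) :
    P.cyc (2 * k) (polForm P k t c n) := by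
  induction n with
  | zero =>
    refine P.cycles.congr _ _ _ (P.cycles.smul _ 0 t ht) fun l _ => ?_
    simp [polForm]
  | succ n ih =>
    refine P.cycles.congr _ _ _ (P.cycles.add _ _ _ ih (P.cycles.smul _ (c n) _
      (pow_cyc P ht n))) fun l _ => ?_
    simp only [polForm, Finset.sum_range_succ]

lemma polForm_numZero {k : ℕ} {t : List X.H → F} (ht : P.cyc (2 * k) t)
    (hn : NumZero P.e P.f P.cyc k t) (c : ℕ → ℚ) (n : ℕ) :
    NumZero P.e P.f P.cyc k (polForm P k t c n) := by
  intro s hs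
  rw [linkForm_eq]
  have h1 : ∀ a : Fin (2 * k) → Fin P.r,
      polForm P k t c n ([] ++ List.ofFn fun i => P.e (a i)) *
        s ((List.ofFn fun i => P.f (a i)).reverse ++ []) =
      ∑ j ∈ Finset.range n, (c j : F) * (powForm P.e P.f k t j ([] ++ List.ofFn fun i => P.e (a i)) *
        s ((List.ofFn fun i => P.f (a i)).reverse ++ [])) := by
    intro a
    rw [polForm, Finset.sum_mul]
    exact Finset.sum_congr rfl fun j _ => by ring
  rw [Finset.sum_congr rfl fun a _ => h1 a, Finset.sum_comm]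
  refine Finset.sum_eq_zero fun j _ => ?_
  rw [← Finset.mul_sum, ← linkForm_eq, numZero_pow P ht hn j s hs, mul_zero]

lemma mat_polForm (k : ℕ) (t : List X.H → F) (c : ℕ → ℚ) (n : ℕ) :
    mat P k (polForm P k t c n) = ∑ j ∈ Finset.range n, (c j : F) • mat P k t ^ (j + 1) := by
  ext a b
  rw [Matrix.sum_apply]
  rw [mat, Matrix.of_apply, polForm]
  refine Finset.sum_congr rfl fun j _ => ?_
  rw [Matrix.smul_apply, smul_eq_mul, ← mat_pow]
  rfl

lemma aeval_X_mul {k : ℕ} (M : Matrix (Fin k → Fin P.r) (Fin k → Fin P.r) F) (q : ℚ[X]) (n : ℕ)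
    (hn : q.natDegree < n) :
    aeval M (Polynomial.X * q) = ∑ j ∈ Finset.range n, ((q.coeff j : ℚ) : F) • M ^ (j + 1) := by
  rw [map_mul, aeval_X, aeval_eq_sum_range' hn, Finset.mul_sum]
  refine Finset.sum_congr rfl fun j _ => ?_
  rw [mul_smul_comm, ← pow_succ']
  ext a b
  simp [Algebra.smul_def]

/-- `t` is zero if its matrix is -/
lemma eq_of_mat {k : ℕ} {t s : List X.H → F} (ht : P.cyc (2 * k) t) (hs : P.cyc (2 * k) s)
    (h : mat P k t = mat P k s) (l : List X.H) (hl : l.length = 2 * k) : t l = s l := by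
  have h1 : P.cyc (2 * k) (fun l => t l + ((-1 : ℚ) : F) * s l) :=
    P.cycles.add _ _ _ ht (P.cycles.smul _ (-1) _ hs)
  have h2 : mat P k (fun l => t l + ((-1 : ℚ) : F) * s l) = 0 := by
    ext a b
    have := congrFun (congrFun h a) b
    rw [mat, mat, Matrix.of_apply, Matrix.of_apply] at this
    rw [mat, Matrix.of_apply, this]
    push_cast
    simp
  have h3 := eq_zero_of_mat P h1 h2 l hl
  push_cast at h3
  linear_combination h3

/-- The nilpotence conjecture for `X^k` means that `X^k` has no phantoms. -/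
theorem nilpotence_iff_noPhantom (k : ℕ) (hr : RationalCorr P k) :
    P.Nilpotence k ↔ NoPhantom P k := by
  constructor
  · intro h t ht hn hid l hl
    obtain ⟨N, hN⟩ := h t ht hn
    have h1 : mat P k t * mat P k t = mat P k t := by
      have h2 : mat P k (powForm P.e P.f k t 1) = mat P k t := by
        ext a b
        rw [mat, mat, Matrix.of_apply, Matrix.of_apply]
        exact hid _ (by rw [List.length_append, List.length_reverse, List.length_ofFn,
          List.length_ofFn]; omega)
      rw [mat_pow, pow_succ, pow_one] at h2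
      exact h2
    have h3 : mat P k t ^ (N + 1) = 0 := by
      rw [← mat_pow]
      ext a b
      rw [mat, Matrix.of_apply]
      exact hN _ (by rw [List.length_append, List.length_reverse, List.length_ofFn,
          List.length_ofFn]; omega)
    have h4 : IsIdempotentElem (mat P k t) := h1
    rw [h4.pow_succ_eq N] at h3
    exact eq_zero_of_mat P ht h3 l hl
  · intro h t ht hn
    obtain ⟨n, c, ⟨i, hi⟩, hc⟩ := hr t ht
    obtain ⟨M, hM⟩ : ∃ M, M = mat P k t := ⟨_, rfl⟩
    obtain ⟨p, hp⟩ : ∃ p : ℚ[X], p = ∑ i : Fin n, C (c i) * Polynomial.X ^ (i : ℕ) := ⟨_, rfl⟩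
    have hp0 : p ≠ 0 := by
      intro h0
      have h1 : p.coeff i = c i := by
        rw [hp, finset_sum_coeff, Finset.sum_eq_single i]
        · rw [coeff_C_mul, coeff_X_pow, if_pos rfl, mul_one]
        · intro j _ hj
          rw [coeff_C_mul, coeff_X_pow, if_neg (fun h => hj (Fin.ext h.symm)), mul_zero]
        · intro h; exact absurd (Finset.mem_univ i) h
      rw [h0, coeff_zero] at h1
      exact hi h1.symm
    have hpM : aeval M (Polynomial.X * p) = 0 := by
      rw [map_mul, aeval_X, hp, map_sum, Finset.mul_sum]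
      ext a b
      rw [Matrix.sum_apply, Matrix.zero_apply]
      have h1 := hc ((List.ofFn fun i => P.f (a i)).reverse ++ List.ofFn fun i => P.e (b i))
        (by rw [List.length_append, List.length_reverse, List.length_ofFn,
          List.length_ofFn]; omega)
      rw [← h1]
      refine Finset.sum_congr rfl fun j _ => ?_
      have h2 : powForm P.e P.f k t j ((List.ofFn fun i => P.f (a i)).reverse ++
          List.ofFn fun i => P.e (b i)) = (M ^ ((j : ℕ) + 1)) a b := by
        rw [hM, ← mat_pow]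
        rfl
      rw [h2, map_mul, map_pow, aeval_X, aeval_C, pow_succ', ← mul_assoc]
      rw [← Algebra.commutes, mul_assoc, ← Algebra.smul_def, Matrix.smul_apply,
        Algebra.smul_def]
      rfl
    obtain ⟨q, m, hid, hm⟩ := exists_fitting M p hp0 hpM
    have hpol : aeval M (Polynomial.X * q) =
        mat P k (polForm P k t (fun j => q.coeff j) (q.natDegree + 1)) := by
      rw [aeval_X_mul P M q (q.natDegree + 1) (Nat.lt_succ_self _), hM, ← mat_polForm]
    rw [hpol] at hid hm
    have hs := polForm_cyc P ht (fun j => q.coeff j) (q.natDegree + 1)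
    have h1 := h _ hs (polForm_numZero P ht hn _ _) (by
      intro l hl
      refine eq_of_mat P (pow_cyc P hs 1) hs ?_ l hl
      rw [mat_pow, pow_succ, pow_one, hid])
    have h2 : mat P k (polForm P k t (fun j => q.coeff j) (q.natDegree + 1)) = 0 := by
      ext a b
      rw [mat, Matrix.of_apply]
      exact h1 _ (by rw [List.length_append, List.length_reverse, List.length_ofFn,
          List.length_ofFn]; omega)
    rw [h2, mul_zero] at hm
    refine ⟨m, fun l hl => eq_zero_of_mat P (pow_cyc P ht m) ?_ l hl⟩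
    rw [mat_pow, ← hM, ← hm]

end Pool.Agent.Helper47.NS
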