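import Pool.Agent.Helper90.NS.More
import Pool.Agent.Helper22.NN.FromCPlus

/-!
# Numerical equivalence compatible with one reduction implies the nilpotence conjecture
-/

set_option linter.unusedSectionVars false

namespace Pool.Agent.Helper47.NS

open Pool.Agent.Helper29.CPB Pool.Agent.Helper89.NN Pool.Agent.Helper90.NS

universe u v

variable {F : Type u} [Field F] [CharZero F]

section indep

variable {X : Variety.{u, v} F} (P : Powers X)

/-- The Casimir element does not depend on the dual bases. -/
lemma casimir_indep {r : ℕ} {e' f' : Fin r → X.H}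
    (hspan : ∀ x, ∑ j, P.B (f' j) x • e' j = x) (β : X.H →ₗ[F] X.H →ₗ[F] F) :
    ∑ j, β (e' j) (f' j) = ∑ i, β (P.e i) (P.f i) := by
  have h1 : ∀ j, β (e' j) (f' j) = ∑ i, P.B (f' j) (P.e i) * β (e' j) (P.f i) := by
    intro j
    have h := congrArg (fun x => β (e' j) x) (zag P (f' j))
    simp only [map_sum, map_smul, smul_eq_mul] at h
    exact h.symm
  rw [Finset.sum_congr rfl fun j _ => h1 j, Finset.sum_comm]
  refine Finset.sum_congr rfl fun i _ => ?_
  have h := congrArg (fun x => β x (P.f i)) (hspan (P.e i))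
  simp only [map_sum, map_smul, LinearMap.sum_apply, LinearMap.smul_apply, smul_eq_mul] at h
  exact h

lemma link_add_left {n : ℕ} {t t' : List X.H → F} (ht : P.cyc n t) (m : ℕ)
    (l₁ l₂ : List X.H) (h : l₁.length + 1 + m = n) (x x' y : X.H) :
    linkForm P.e P.f m t t' (l₁ ++ [x + x']) (y :: l₂) =
      linkForm P.e P.f m t t' (l₁ ++ [x]) (y :: l₂) +
      linkForm P.e P.f m t t' (l₁ ++ [x']) (y :: l₂) := by
  have f1 := P.cycles.form _ _ ht
  rw [linkForm_eq, linkForm_eq, linkForm_eq, ← Finset.sum_add_distrib]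
  refine Finset.sum_congr rfl fun a _ => ?_
  rw [← add_mul]
  congr 1
  simpa using f1.add l₁ (List.ofFn fun i => P.e (a i)) x x' (by rw [List.length_ofFn]; omega)

lemma link_smul_left {n : ℕ} {t t' : List X.H → F} (ht : P.cyc n t) (m : ℕ)
    (l₁ l₂ : List X.H) (h : l₁.length + 1 + m = n) (c : F) (x y : X.H) :
    linkForm P.e P.f m t t' (l₁ ++ [c • x]) (y :: l₂) =
      c * linkForm P.e P.f m t t' (l₁ ++ [x]) (y :: l₂) := by
  have f1 := P.cycles.form _ _ ht
  rw [linkForm_eq, linkForm_eq, Finset.mul_sum]
  refine Finset.sum_congr rfl fun a _ => ?_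
  rw [← mul_assoc]
  congr 1
  simpa using f1.smul l₁ (List.ofFn fun i => P.e (a i)) c x (by rw [List.length_ofFn]; omega)

lemma link_add_right {n' : ℕ} {t t' : List X.H → F} (ht' : P.cyc n' t') (m : ℕ)
    (l₁ l₂ : List X.H) (h' : m + 1 + l₂.length = n') (x y y' : X.H) :
    linkForm P.e P.f m t t' (l₁ ++ [x]) ((y + y') :: l₂) =
      linkForm P.e P.f m t t' (l₁ ++ [x]) (y :: l₂) +
      linkForm P.e P.f m t t' (l₁ ++ [x]) (y' :: l₂) := by
  have f2 := P.cycles.form _ _ ht'
  rw [linkForm_eq, linkForm_eq, linkForm_eq, ← Finset.sum_add_distrib]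
  refine Finset.sum_congr rfl fun a _ => ?_
  rw [← mul_add]
  congr 1
  exact f2.add (List.ofFn fun i => P.f (a i)).reverse l₂ y y' (by
    rw [List.length_reverse, List.length_ofFn]; omega)

lemma link_smul_right {n' : ℕ} {t t' : List X.H → F} (ht' : P.cyc n' t') (m : ℕ)
    (l₁ l₂ : List X.H) (h' : m + 1 + l₂.length = n') (c : F) (x y : X.H) :
    linkForm P.e P.f m t t' (l₁ ++ [x]) ((c • y) :: l₂) =
      c * linkForm P.e P.f m t t' (l₁ ++ [x]) (y :: l₂) := by
  have f2 := P.cycles.form _ _ ht'
  rw [linkForm_eq, linkForm_eq, Finset.mul_sum]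
  refine Finset.sum_congr rfl fun a _ => ?_
  rw [f2.smul (List.ofFn fun i => P.f (a i)).reverse l₂ c y (by
    rw [List.length_reverse, List.length_ofFn]; omega)]
  ring

/-- `linkForm` does not depend on the dual bases. -/
lemma link_indep {r : ℕ} {e' f' : Fin r → X.H}
    (hspan : ∀ x, ∑ j, P.B (f' j) x • e' j = x) {n n' : ℕ} {t t' : List X.H → F}
    (ht : P.cyc n t) (ht' : P.cyc n' t') (m : ℕ) (l₁ l₂ : List X.H)
    (h : l₁.length + m = n) (h' : m + l₂.length = n') :
    linkForm e' f' m t t' l₁ l₂ = linkForm P.e P.f m t t' l₁ l₂ := by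
  induction m generalizing l₁ l₂ with
  | zero => rfl
  | succ m ih =>
    rw [linkForm, linkForm]
    have e1 : ∀ j, linkForm e' f' m t t' (l₁ ++ [e' j]) (f' j :: l₂) =
        linkForm P.e P.f m t t' (l₁ ++ [e' j]) (f' j :: l₂) := fun j =>
      ih _ _ (by rw [List.length_append, List.length_singleton]; omega)
        (by rw [List.length_cons]; omega)
    rw [Finset.sum_congr rfl fun j _ => e1 j]
    let β : X.H →ₗ[F] X.H →ₗ[F] F := LinearMap.mk₂ F
      (fun x y => linkForm P.e P.f m t t' (l₁ ++ [x]) (y :: l₂))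
      (fun x x' y => link_add_left P ht m l₁ l₂ (by omega) x x' y)
      (fun c x y => link_smul_left P ht m l₁ l₂ (by omega) c x y)
      (fun x y y' => link_add_right P ht' m l₁ l₂ (by omega) x y y')
      (fun c x y => link_smul_right P ht' m l₁ l₂ (by omega) c x y)
    exact casimir_indep P hspan β

lemma link_congr {r : ℕ} {V : Type v} [AddCommGroup V] [Module F V] {e f : Fin r → V}
    {n n' : ℕ} {t s t' s' : List V → F} (h1 : ∀ l, l.length = n → t l = s l)
    (h2 : ∀ l, l.length = n' → t' l = s' l) (m : ℕ) (l₁ l₂ : List V)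
    (h : l₁.length + m = n) (h' : m + l₂.length = n') :
    linkForm e f m t t' l₁ l₂ = linkForm e f m s s' l₁ l₂ := by
  rw [linkForm_eq, linkForm_eq]
  refine Finset.sum_congr rfl fun a _ => ?_
  rw [h1 _ (by rw [List.length_append, List.length_ofFn]; exact h),
    h2 _ (by rw [List.length_append, List.length_reverse, List.length_ofFn]; exact h')]

/-- `powForm` does not depend on the dual bases. -/
lemma pow_indep {r : ℕ} {e' f' : Fin r → X.H}
    (hspan : ∀ x, ∑ j, P.B (f' j) x • e' j = x) {k : ℕ} {t : List X.H → F}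
    (ht : P.cyc (2 * k) t) (N : ℕ) (l : List X.H) (hl : l.length = 2 * k) :
    powForm e' f' k t N l = powForm P.e P.f k t N l := by
  induction N generalizing l with
  | zero => rfl
  | succ N ih =>
    have h1 : (l.take k).length = k := by rw [List.length_take]; omega
    have h2 : (l.drop k).length = k := by rw [List.length_drop]; omega
    show linkForm e' f' k (powForm e' f' k t N) t (l.take k) (l.drop k) =
      linkForm P.e P.f k (powForm P.e P.f k t N) t (l.take k) (l.drop k)
    rw [link_congr (n := 2 * k) (n' := 2 * k) (s := powForm P.e P.f k t N) (s' := t)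
      (fun l hl => ih l hl) (fun _ _ => rfl) k _ _ (by omega) (by omega)]
    exact link_indep P hspan (pow_cyc P ht N) ht k _ _ (by omega) (by omega)

end indep

section transport

variable {V W : Type v} [AddCommGroup V] [Module F V] [AddCommGroup W] [Module F W]

omit [CharZero F] in
lemma link_map (s : V ≃ₗ[F] W) {r : ℕ} (e f : Fin r → V) (m : ℕ) (t t' : List V → F)
    (l₁ l₂ : List V) :
    linkForm (fun j => s (e j)) (fun j => s (f j)) m (fun l => t (l.map s.symm))
      (fun l => t' (l.map s.symm)) (l₁.map s) (l₂.map s) = linkForm e f m t t' l₁ l₂ := by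
  rw [linkForm_eq, linkForm_eq]
  refine Finset.sum_congr rfl fun a _ => ?_
  have hs : ∀ l : List V, (l.map s).map s.symm = l := by
    intro l
    rw [List.map_map]
    conv_rhs => rw [← List.map_id l]
    exact List.map_congr_left fun x _ => s.symm_apply_apply x
  have h1 : (List.ofFn fun i => s (e (a i))) = (List.ofFn fun i => e (a i)).map s := by
    rw [List.map_ofFn]; rfl
  have h2 : (List.ofFn fun i => s (f (a i))) = (List.ofFn fun i => f (a i)).map s := by
    rw [List.map_ofFn]; rfl
  rw [h1, h2, ← List.map_reverse, ← List.map_append, ← List.map_append, hs, hs]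

omit [CharZero F] in
lemma pow_map (s : V ≃ₗ[F] W) {r : ℕ} (e f : Fin r → V) (k : ℕ) (t : List V → F) (N : ℕ)
    (l : List W) :
    powForm (fun j => s (e j)) (fun j => s (f j)) k (fun l => t (l.map s.symm)) N l =
      powForm e f k t N (l.map s.symm) := by
  induction N generalizing l with
  | zero => rfl
  | succ N ih =>
    rw [powForm, powForm]
    have h0 : powForm (fun j => s (e j)) (fun j => s (f j)) k (fun l => t (l.map s.symm)) N =
        fun l => powForm e f k t N (l.map s.symm) := funext ih
    have hs : ∀ l : List W, (l.map s.symm).map s = l := by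
      intro l
      rw [List.map_map]
      conv_rhs => rw [← List.map_id l]
      exact List.map_congr_left fun x _ => s.apply_symm_apply x
    have h := link_map s e f k (powForm e f k t N) t ((l.map s.symm).take k)
      ((l.map s.symm).drop k)
    rw [List.map_take, List.map_drop, hs] at h
    show linkForm _ _ k (powForm (fun j => s (e j)) (fun j => s (f j)) k
      (fun l => t (l.map s.symm)) N) _ (l.take k) (l.drop k) = linkForm e f k
        (powForm e f k t N) t ((l.map s.symm).take k) ((l.map s.symm).drop k)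
    rw [h0, h]

end transport

/-- If numerical equivalence on `X^k × X^k` is compatible with one reduction, then the nilpotence
conjecture holds for `X^k`. -/
theorem nilpotence_of_spNum {X X₀ : Variety.{u, v} F} {P : Powers X} {P₀ : Powers X₀}
    (R : Reduction P P₀) (k : ℕ) (h : R.SpNum k) : P.Nilpotence k := by
  intro t ht hn
  have ht₀ : P₀.cyc (2 * k) (fun l => t (l.map R.sp.symm)) := R.cycles _ _ ht
  obtain ⟨N, hN⟩ := nilpotence_of_cplus P₀ R.katzMessing k _ ht₀ (h t ht hn)
  refine ⟨N, fun l hl => ?_⟩
  have hspan : ∀ x, ∑ j, P₀.B (R.sp (P.f j)) x • R.sp (P.e j) = x := by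
    intro x
    obtain ⟨y, rfl⟩ := R.sp.surjective x
    have h2 := congrArg R.sp (P.bases.span y)
    rw [map_sum] at h2
    refine Eq.trans (Finset.sum_congr rfl fun j _ => ?_) h2
    rw [R.form, map_smul]
  have h1 := pow_indep P₀ (e' := fun j => R.sp (P.e j)) (f' := fun j => R.sp (P.f j)) hspan ht₀ N
    (l.map R.sp) (by rw [List.length_map]; exact hl)
  rw [hN _ (by rw [List.length_map]; exact hl), pow_map] at h1
  have hs : (l.map R.sp).map R.sp.symm = l := by
    rw [List.map_map]
    conv_rhs => rw [← List.map_id l]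
    exact List.map_congr_left fun x _ => R.sp.symm_apply_apply x
  rw [hs] at h1
  exact h1

end Pool.Agent.Helper47.NS
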